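import Mathlib

/-! Elastic flow of planar networks.  The plane is `ℂ`; curves are parametrised on `[0,1]`. -/

open Set
open scoped ContDiff

namespace Pool.Agent.MP_03af62_an

/-- Arclength derivative `∂_s f = f_x / |γ_x|` along `γ`; `ds γ γ` is the unit tangent `τ`. -/
noncomputable def ds {E : Type} [NormedAddCommGroup E] [NormedSpace ℝ E]
    (γ : ℝ → ℂ) (f : ℝ → E) (x : ℝ) : E :=
  ‖derivWithin γ (Icc 0 1) x‖⁻¹ • derivWithin f (Icc 0 1) x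

/-- The unit normal: `τ` rotated counterclockwise by `π/2`. -/
noncomputable def nrm (γ : ℝ → ℂ) (x : ℝ) : ℂ := Complex.I * ds γ γ x

/-- The oriented curvature `k = ⟨∂_s τ, ν⟩`. -/
noncomputable def curv (γ : ℝ → ℂ) (x : ℝ) : ℝ := inner ℝ (ds γ (ds γ γ) x) (nrm γ x)

/-- The normal velocity `V = -2 ∂_s² k - k³ + μ k`. -/
noncomputable def vel (m : ℝ) (γ : ℝ → ℂ) (x : ℝ) : ℝ :=
  -2 * ds γ (ds γ (curv γ)) x - curv γ x ^ 3 + m * curv γ x

/-- The length. -/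
noncomputable def len (γ : ℝ → ℂ) : ℝ := ∫ x in (0 : ℝ)..1, ‖derivWithin γ (Icc 0 1) x‖

/-- Parameter value of a curve end (`false`: `x = 0`, `true`: `x = 1`). -/
def pt (b : Bool) : ℝ := if b then 1 else 0

/-- Combinatorial type: the vertex at each curve end, which vertices are clamped, the weights. -/
structure Net (N : ℕ) where
  vtx : Fin N × Bool → ℕ
  clamped : ℕ → Prop
  weight : Fin N → ℝ

/-- The curve ends lying at the same vertex as `e`; its cardinality is the order of the vertex. -/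
def Net.star {N : ℕ} (D : Net N) (e : Fin N × Bool) : Finset (Fin N × Bool) :=
  Finset.univ.filter fun e' => D.vtx e' = D.vtx e

/-- Boundary conditions for the network `Γ`, prescribed points and tangents being those of `Γ₀`. -/
def BC {N : ℕ} (D : Net N) (Γ₀ Γ : Fin N → ℝ → ℂ) : Prop :=
  ∀ e : Fin N × Bool,
    (∀ e' ∈ D.star e, Γ e'.1 (pt e'.2) = Γ e.1 (pt e.2)) ∧
    (D.clamped (D.vtx e) → Γ e.1 (pt e.2) = Γ₀ e.1 (pt e.2) ∧
      ds (Γ e.1) (Γ e.1) (pt e.2) = ds (Γ₀ e.1) (Γ₀ e.1) (pt e.2)) ∧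
    (¬ D.clamped (D.vtx e) → curv (Γ e.1) (pt e.2) = 0 ∧
      ((D.star e).card = 1 → Γ e.1 (pt e.2) = Γ₀ e.1 (pt e.2)) ∧
      (2 ≤ (D.star e).card → ∑ e' ∈ D.star e, (if e'.2 then (-1 : ℝ) else 1) •
        ((2 * ds (Γ e'.1) (curv (Γ e'.1)) (pt e'.2)) • nrm (Γ e'.1) (pt e'.2) -
          D.weight e'.1 • ds (Γ e'.1) (Γ e'.1) (pt e'.2)) = 0))

/-- Admissible initial network: smooth regular curves, connected union, boundary conditions,
non-degeneracy at natural junctions, fourth order compatibility at every vertex. -/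
def Admissible {N : ℕ} (D : Net N) (Γ : Fin N → ℝ → ℂ) : Prop :=
  (∀ i, ContDiffOn ℝ ∞ (Γ i) (Icc 0 1) ∧ ∀ x ∈ Icc (0 : ℝ) 1, derivWithin (Γ i) (Icc 0 1) x ≠ 0) ∧
  IsConnected (⋃ i, Γ i '' Icc 0 1) ∧ BC D Γ Γ ∧
  ∀ e : Fin N × Bool,
    (¬ D.clamped (D.vtx e) → 2 ≤ (D.star e).card →
      Submodule.span ℝ ((fun e' => nrm (Γ e'.1) (pt e'.2)) '' (D.star e : Set (Fin N × Bool))) = ⊤) ∧
    ∃ w : ℂ, (D.clamped (D.vtx e) ∨ (D.star e).card = 1 → w = 0) ∧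
      ∀ e' ∈ D.star e, inner ℝ w (nrm (Γ e'.1) (pt e'.2)) = vel (D.weight e'.1) (Γ e'.1) (pt e'.2)

/-- `γ t i` is the `i`-th curve at time `t` of a smooth solution of the elastic flow on `[0,T)`. -/
def IsFlow {N : ℕ} (D : Net N) (T : ℝ) (γ : ℝ → Fin N → ℝ → ℂ) : Prop :=
  (∀ i, ContDiffOn ℝ ∞ (fun p : ℝ × ℝ => γ p.1 i p.2) (Ico 0 T ×ˢ Icc 0 1)) ∧
  ∀ t ∈ Ico 0 T, BC D (γ 0) (γ t) ∧ ∀ i, ∀ x ∈ Icc (0 : ℝ) 1,
    derivWithin (γ t i) (Icc 0 1) x ≠ 0 ∧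
    inner ℝ (derivWithin (fun u => γ u i x) (Ico 0 T) t) (nrm (γ t i) x) =
      vel (D.weight i) (γ t i) x

end Pool.Agent.MP_03af62_an
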