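import Pool.Agent.MP_03af62_an.Profile

open Set

namespace Pool.Agent.MP_03af62_an

theorem le_of_deriv_nonneg {f f' : ℝ → ℝ} {a b : ℝ} (hab : a ≤ b)
    (hf : ∀ s ∈ Icc a b, HasDerivAt f (f' s) s) (h : ∀ s ∈ Icc a b, 0 ≤ f' s) : f a ≤ f b := by
  have hm : MonotoneOn f (Icc a b) := by
    apply monotoneOn_of_deriv_nonneg (convex_Icc a b)
    · exact fun s hs => (hf s hs).continuousAt.continuousWithinAt
    · exact fun s hs => (hf s (interior_subset hs)).differentiableAt.differentiableWithinAt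
    · intro s hs
      rw [(hf s (interior_subset hs)).deriv]
      exact h s (interior_subset hs)
  exact hm (left_mem_Icc.2 hab) (right_mem_Icc.2 hab) hab

theorem exists_profile : ∃ (φ k A B : ℝ → ℝ) (μ : ℝ), 0 < μ ∧ Continuous φ ∧
    (∀ s, φ (-s) = -φ s) ∧ (∀ s ∈ Icc (-1 : ℝ) 1, HasDerivAt φ (k s) s ∧
      HasDerivAt k ((1 / 40) * (A s * Real.cos (φ s) - B s * Real.sin (φ s))) s ∧
      HasDerivAt A (Real.cos (φ s) ^ 2) s ∧
      HasDerivAt B (-(Real.sin (φ s) * Real.cos (φ s))) s ∧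
      k s ^ 2 - (1 / 20) * (A s * Real.sin (φ s) + B s * Real.cos (φ s)) = μ ∧
      |φ s| ≤ 3 / 20) ∧
    k 1 = 0 ∧ k (-1) = 0 ∧ B 1 = 0 ∧ B (-1) = 0 ∧ 0 ≤ A 1 ∧ A (-1) ≤ 0 := by
  obtain ⟨ψ, hc, ho, hfix⟩ := exists_fixed
  set φ := fPhi ψ with hφ
  set k := fk ψ with hk
  set A := fA ψ with hA
  set B := fB ψ with hB
  have dφ : ∀ s, HasDerivAt φ (k s) s := fun s => prim_hasDerivAt (fk_cont hc) s
  have dk : ∀ s ∈ Icc (-1 : ℝ) 1,
      HasDerivAt k ((1 / 40) * (A s * Real.cos (φ s) - B s * Real.sin (φ s))) s := by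
    intro s hs
    have := (prim_hasDerivAt (fg_cont hc) s).sub_const (prim (fg ψ) 1)
    rw [← hfix s hs]
    exact this
  have dA : ∀ s ∈ Icc (-1 : ℝ) 1, HasDerivAt A (Real.cos (φ s) ^ 2) s := by
    intro s hs
    rw [← hfix s hs]
    exact prim_hasDerivAt (f := fun u => Real.cos (ψ u) ^ 2) (by fun_prop) s
  have dB : ∀ s ∈ Icc (-1 : ℝ) 1, HasDerivAt B (-(Real.sin (φ s) * Real.cos (φ s))) s := by
    intro s hs
    rw [← hfix s hs]
    exact (prim_hasDerivAt (f := fun u => Real.sin (ψ u) * Real.cos (ψ u))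
      (by fun_prop) s).const_sub (fH ψ 1)
  have k1 : k 1 = 0 := by simp [hk, fk]
  have k1' : k (-1) = 0 := by rw [hk, fk_even ho]; exact k1
  have B1 : B 1 = 0 := by simp [hB, fB]
  have B1' : B (-1) = 0 := by rw [hB, fB_even ho]; exact B1
  have A0 : A 0 = 0 := prim_zero _
  have φ0 : φ 0 = 0 := prim_zero _
  have hφb : ∀ s ∈ Icc (-1 : ℝ) 1, |φ s| ≤ 3 / 20 := fun s hs => abs_fPhi_le ψ hs
  have hsin : ∀ s ∈ Icc (-1 : ℝ) 1, |Real.sin (φ s)| ≤ 3 / 20 := fun s hs =>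
    Real.abs_sin_le_abs.trans (hφb s hs)
  have hcos : ∀ s ∈ Icc (-1 : ℝ) 1, 9 / 10 ≤ Real.cos (φ s) := fun s hs => by
    have h1 := Real.one_sub_sq_div_two_le_cos (x := φ s)
    have h2 := abs_le.1 (hφb s hs)
    nlinarith [h2.1, h2.2]
  have hBb : ∀ s ∈ Icc (-1 : ℝ) 1, |B s| ≤ 2 * (3 / 20) := fun s hs =>
    abs_fB_le ψ (fun u hu => by rw [hfix u hu]; exact hsin u hu) hs
  have sub01 : ∀ s ∈ Icc (0 : ℝ) 1, s ∈ Icc (-1 : ℝ) 1 := fun s hs =>
    ⟨by linarith [hs.1], hs.2⟩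
  -- lower bound for A on [0,1]
  have hAl : ∀ s ∈ Icc (0 : ℝ) 1, (4 / 5) * s ≤ A s := by
    intro s hs
    have := le_of_deriv_nonneg (f := fun u => A u - (4 / 5) * u)
      (f' := fun u => Real.cos (φ u) ^ 2 - (4 / 5) * 1) hs.1
      (fun u hu => (dA u (sub01 u ⟨hu.1, hu.2.trans hs.2⟩)).sub
        ((hasDerivAt_id u).const_mul (4 / 5)))
      (fun u hu => by
        have := hcos u (sub01 u ⟨hu.1, hu.2.trans hs.2⟩)
        nlinarith)
    simp only [A0] at this
    linarith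
  have hgl : ∀ s ∈ Icc (0 : ℝ) 1,
      (7 / 10) * s - 1 / 20 ≤ A s * Real.cos (φ s) - B s * Real.sin (φ s) := by
    intro s hs
    have h1 := hAl s hs
    have h2 := hcos s (sub01 s hs)
    have h3 : |B s * Real.sin (φ s)| ≤ 2 * (3 / 20) * (3 / 20) := by
      rw [abs_mul]
      exact mul_le_mul (hBb s (sub01 s hs)) (hsin s (sub01 s hs)) (abs_nonneg _) (by norm_num)
    have h4 := (abs_le.1 h3).2
    have h5 : (4 / 5) * s * (9 / 10) ≤ A s * Real.cos (φ s) :=
      mul_le_mul h1 h2 (by norm_num) (by nlinarith [hs.1])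
    nlinarith [hs.1]
  have hku : ∀ s ∈ Icc (0 : ℝ) 1,
      k s + (1 / 40) * ((7 / 20) * (1 - s ^ 2) - (1 / 20) * (1 - s)) ≤ 0 := by
    intro s hs
    have := le_of_deriv_nonneg
      (f := fun u => k u + (1 / 40) * ((7 / 20) * (1 - u ^ 2) - (1 / 20) * (1 - u)))
      (f' := fun u => (1 / 40) * (A u * Real.cos (φ u) - B u * Real.sin (φ u)) +
        (1 / 40) * ((7 / 20) * (-(2 * u)) - (1 / 20) * (-1))) hs.2
      (fun u hu => by
        refine (dk u (sub01 u ⟨hs.1.trans hu.1, hu.2⟩)).add (HasDerivAt.const_mul _ ?_)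
        refine HasDerivAt.sub (HasDerivAt.const_mul _ ?_) (HasDerivAt.const_mul _ ?_)
        · simpa using (hasDerivAt_pow 2 u).const_sub 1
        · exact (hasDerivAt_id u).const_sub 1)
      (fun u hu => by
        have := hgl u ⟨hs.1.trans hu.1, hu.2⟩
        linarith)
    simp only [k1] at this
    linarith
  have hφ1 : φ 1 < 0 := by
    have := le_of_deriv_nonneg
      (f := fun u => -φ u - (1 / 40) * ((7 / 20) * (u - u ^ 3 / 3) - (1 / 20) * (u - u ^ 2 / 2)))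
      (f' := fun u => -k u - (1 / 40) * ((7 / 20) * (1 - u ^ 2) - (1 / 20) * (1 - u)))
      zero_le_one
      (fun u _ => by
        refine (dφ u).neg.sub (HasDerivAt.const_mul _ ?_)
        refine HasDerivAt.sub (HasDerivAt.const_mul _ ?_) (HasDerivAt.const_mul _ ?_)
        · have := (hasDerivAt_id u).sub ((hasDerivAt_pow 3 u).div_const 3)
          refine this.congr_deriv ?_
          norm_num
        · have := (hasDerivAt_id u).sub ((hasDerivAt_pow 2 u).div_const 2)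
          refine this.congr_deriv ?_
          norm_num)
      (fun u hu => by
        have := hku u hu
        linarith)
    simp only [φ0] at this
    linarith
  have hsin1 : Real.sin (φ 1) < 0 := by
    apply Real.sin_neg_of_neg_of_neg_pi_lt hφ1
    have := (abs_le.1 (hφb 1 one_mem)).1
    linarith [Real.pi_gt_three]
  have hA1 : 0 < A 1 := by
    have := hAl 1 (by norm_num)
    linarith
  have hA1' : A (-1) ≤ 0 := by
    rw [hA, fA_odd ho, ← hA]; linarith
  -- first integral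
  have dh : ∀ s ∈ Icc (-1 : ℝ) 1, HasDerivAt
      (fun s => k s ^ 2 - (1 / 20) * (A s * Real.sin (φ s) + B s * Real.cos (φ s))) 0 s := by
    intro s hs
    have h1 := ((dk s hs).pow 2).sub
      ((((dA s hs).mul (dφ s).sin).add ((dB s hs).mul (dφ s).cos)).const_mul (1 / 20))
    refine HasDerivAt.congr_deriv h1 ?_
    norm_num
    ring
  have hconst : ∀ s ∈ Icc (-1 : ℝ) 1,
      k s ^ 2 - (1 / 20) * (A s * Real.sin (φ s) + B s * Real.cos (φ s)) =
        -(1 / 20) * (A 1 * Real.sin (φ 1)) := by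
    intro s hs
    have h1 := le_of_deriv_nonneg (f' := fun _ => 0) hs.2
      (fun u hu => dh u ⟨hs.1.trans hu.1, hu.2⟩) (fun _ _ => le_rfl)
    have h2 := le_of_deriv_nonneg (f' := fun _ => -0) hs.2
      (fun u hu => (dh u ⟨hs.1.trans hu.1, hu.2⟩).neg) (fun _ _ => by simp)
    simp only [Pi.neg_apply, k1, B1] at h1 h2
    linarith
  refine ⟨φ, k, A, B, -(1 / 20) * (A 1 * Real.sin (φ 1)), by nlinarith, fPhi_cont hc,
    fPhi_odd ho, fun s hs => ⟨dφ s, dk s hs, dA s hs, dB s hs, hconst s hs, hφb s hs⟩,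
    k1, k1', B1, B1', hA1.le, hA1'⟩

end Pool.Agent.MP_03af62_an
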