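import Pool.Agent.MP_03af62_an.Defs
import Pool.Agent.MP_03af62_an.Profile2

open Set
open scoped ContDiff

namespace Pool.Agent.MP_03af62_an

theorem dW_eq {E : Type} [NormedAddCommGroup E] [NormedSpace ℝ E] {f F : ℝ → E} {F' : E} {x : ℝ}
    (hx : x ∈ Icc (0 : ℝ) 1) (h : ∀ y ∈ Icc (0 : ℝ) 1, f y = F y) (hF : HasDerivAt F F' x) :
    derivWithin f (Icc 0 1) x = F' :=
  (hF.hasDerivWithinAt.congr h (h x hx)).derivWithin (uniqueDiffOn_Icc zero_lt_one x hx)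

theorem inner_c (a b : ℂ) : inner ℝ a b = a.re * b.re + a.im * b.im := by
  rw [Complex.inner]
  simp [mul_comm]

/-- horizontal segment from `p` with signed length `σ * l` -/
noncomputable def seg (p : ℂ) (r : ℝ) (x : ℝ) : ℂ := p + ((x * r : ℝ) : ℂ)

theorem seg_hasDerivAt (p : ℂ) (r x : ℝ) : HasDerivAt (seg p r) (r : ℂ) x := by
  have h : HasDerivAt (fun x : ℝ => x * r) r x := by simpa using (hasDerivAt_id x).mul_const r
  exact h.ofReal_comp.const_add p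

theorem seg_dW (p : ℂ) (r : ℝ) {x : ℝ} (hx : x ∈ Icc (0 : ℝ) 1) :
    derivWithin (seg p r) (Icc 0 1) x = r :=
  dW_eq hx (fun _ _ => rfl) (seg_hasDerivAt p r x)

theorem ds_const {E : Type} [NormedAddCommGroup E] [NormedSpace ℝ E] (γ : ℝ → ℂ) {f : ℝ → E}
    {c : E} (h : ∀ y ∈ Icc (0 : ℝ) 1, f y = c) {x : ℝ} (hx : x ∈ Icc (0 : ℝ) 1) :
    ds γ f x = 0 := by
  unfold ds
  rw [dW_eq hx h (hasDerivAt_const x c), smul_zero]

theorem seg_tan (p : ℂ) {σ l : ℝ} (hσ : σ = 1 ∨ σ = -1) (hl : 0 < l) {x : ℝ}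
    (hx : x ∈ Icc (0 : ℝ) 1) : ds (seg p (σ * l)) (seg p (σ * l)) x = σ := by
  unfold ds
  rw [seg_dW p _ hx, Complex.norm_real, Real.norm_eq_abs, abs_mul, abs_of_pos hl]
  have : |σ| = 1 := by rcases hσ with rfl | rfl <;> simp
  rw [this, one_mul, Complex.real_smul]
  have hl' : (l : ℂ) ≠ 0 := by exact_mod_cast hl.ne'
  push_cast
  field_simp

theorem seg_nrm (p : ℂ) {σ l : ℝ} (hσ : σ = 1 ∨ σ = -1) (hl : 0 < l) {x : ℝ}
    (hx : x ∈ Icc (0 : ℝ) 1) : nrm (seg p (σ * l)) x = Complex.I * σ := by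
  unfold nrm
  rw [seg_tan p hσ hl hx]

theorem seg_curv (p : ℂ) {σ l : ℝ} (hσ : σ = 1 ∨ σ = -1) (hl : 0 < l) {x : ℝ}
    (hx : x ∈ Icc (0 : ℝ) 1) : curv (seg p (σ * l)) x = 0 := by
  unfold curv
  rw [ds_const _ (fun y hy => seg_tan p hσ hl hy) hx, inner_zero_left]

theorem seg_dcurv (p : ℂ) {σ l : ℝ} (hσ : σ = 1 ∨ σ = -1) (hl : 0 < l) {x : ℝ}
    (hx : x ∈ Icc (0 : ℝ) 1) : ds (seg p (σ * l)) (curv (seg p (σ * l))) x = 0 :=
  ds_const _ (fun _ hy => seg_curv p hσ hl hy) hx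

theorem seg_vel (m : ℝ) (p : ℂ) {σ l : ℝ} (hσ : σ = 1 ∨ σ = -1) (hl : 0 < l) {x : ℝ}
    (hx : x ∈ Icc (0 : ℝ) 1) : vel m (seg p (σ * l)) x = 0 := by
  unfold vel
  rw [ds_const _ (fun y hy => seg_dcurv p hσ hl hy) hx, seg_curv p hσ hl hx]
  simp

theorem seg_len (p : ℂ) (r : ℝ) : len (seg p r) = |r| := by
  unfold len
  rw [intervalIntegral.integral_congr (g := fun _ => |r|)]
  · simp
  · intro x hx
    rw [uIcc_of_le zero_le_one] at hx
    simp only [seg_dW p r hx, Complex.norm_real, Real.norm_eq_abs]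

/-- the data of the travelling profile -/
structure Prof (c : ℝ) (φ k A B : ℝ → ℝ) (Z : ℝ → ℂ) (μ : ℝ) : Prop where
  dφ : ∀ s ∈ Icc (-1 : ℝ) 1, HasDerivAt φ (k s) s
  dk : ∀ s ∈ Icc (-1 : ℝ) 1,
    HasDerivAt k ((c / 2) * (A s * Real.cos (φ s) - B s * Real.sin (φ s))) s
  dA : ∀ s ∈ Icc (-1 : ℝ) 1, HasDerivAt A (Real.cos (φ s) ^ 2) s
  dB : ∀ s ∈ Icc (-1 : ℝ) 1, HasDerivAt B (-(Real.sin (φ s) * Real.cos (φ s))) s
  dZ : ∀ s ∈ Icc (-1 : ℝ) 1, HasDerivAt Z (Complex.I * Complex.exp (φ s * Complex.I)) s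
  first : ∀ s ∈ Icc (-1 : ℝ) 1,
    k s ^ 2 - c * (A s * Real.sin (φ s) + B s * Real.cos (φ s)) = μ
  small : ∀ s ∈ Icc (-1 : ℝ) 1, |φ s| ≤ 3 / 20
  pos : 0 < μ
  k1 : k 1 = 0
  k1' : k (-1) = 0
  B1 : B 1 = 0
  B1' : B (-1) = 0
  A1 : 0 ≤ A 1
  A1' : A (-1) ≤ 0
  Z1 : (Z 1).re = 0
  Z1' : (Z (-1)).re = 0

theorem exists_prof : ∃ (φ k A B : ℝ → ℝ) (Z : ℝ → ℂ) (μ : ℝ), Prof (1 / 20) φ k A B Z μ := by
  obtain ⟨φ, k, A, B, μ, hμ, hc, ho, h, k1, k1', B1, B1', A1, A1'⟩ := exists_profile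
  have hs : Continuous fun u => -Real.sin (φ u) := by fun_prop
  have hco : Continuous fun u => Real.cos (φ u) := by fun_prop
  refine ⟨φ, k, A, B, fun s => ((prim (fun u => -Real.sin (φ u)) s -
      prim (fun u => -Real.sin (φ u)) 1 : ℝ) : ℂ) +
      ((prim (fun u => Real.cos (φ u)) s : ℝ) : ℂ) * Complex.I, μ,
    fun s hs => (h s hs).1, fun s hs => ?_, fun s hs => (h s hs).2.2.1,
    fun s hs => (h s hs).2.2.2.1, fun s _ => ?_, fun s hs => (h s hs).2.2.2.2.1,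
    fun s hs => (h s hs).2.2.2.2.2, hμ, k1, k1', B1, B1', A1, A1', ?_, ?_⟩
  · refine (h s hs).2.1.congr_deriv ?_
    ring
  · have h1 := ((prim_hasDerivAt hs s).sub_const (prim (fun u => -Real.sin (φ u)) 1)).ofReal_comp
    have h2 := (prim_hasDerivAt hco s).ofReal_comp.mul_const Complex.I
    refine (h1.add h2).congr_deriv ?_
    apply Complex.ext
    · simp [Complex.exp_ofReal_mul_I_re, Complex.exp_ofReal_mul_I_im, Complex.sin_ofReal_re,
        Complex.cos_ofReal_im]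
    · simp [Complex.exp_ofReal_mul_I_re, Complex.exp_ofReal_mul_I_im, Complex.cos_ofReal_re,
        Complex.sin_ofReal_im]
  · simp
  · have := prim_neg_of_odd (f := fun u => -Real.sin (φ u)) (fun u => by simp [ho]) 1
    simp [this]

theorem Prof.mirror {c : ℝ} {φ k A B : ℝ → ℝ} {Z : ℝ → ℂ} {μ : ℝ} (P : Prof c φ k A B Z μ) :
    Prof (-c) (fun s => -φ s) (fun s => -k s) A (fun s => -B s)
      (fun s => -(starRingEnd ℂ) (Z s)) μ := by
  refine ⟨fun s hs => (P.dφ s hs).neg, fun s hs => ?_, fun s hs => ?_, fun s hs => ?_,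
    fun s hs => ?_, fun s hs => ?_, fun s hs => ?_, P.pos, by simp [P.k1], by simp [P.k1'],
    by simp [P.B1], by simp [P.B1'], P.A1, P.A1', by simp [P.Z1], by simp [P.Z1']⟩
  · refine (P.dk s hs).neg.congr_deriv ?_
    simp only [Real.cos_neg, Real.sin_neg]; ring
  · simpa only [Real.cos_neg] using P.dA s hs
  · refine (P.dB s hs).neg.congr_deriv ?_
    simp only [Real.cos_neg, Real.sin_neg]; ring
  · have h1 := (Complex.conjCLE.toContinuousLinearMap.hasFDerivAt.comp_hasDerivAt s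
      (P.dZ s hs)).neg
    refine HasDerivAt.congr_deriv h1 ?_
    simp [← Complex.exp_conj]
  · have := P.first s hs
    simp only [Real.cos_neg, Real.sin_neg]
    linear_combination this
  · simpa only [abs_neg] using P.small s hs

theorem Prof.smooth {c : ℝ} {φ k A B : ℝ → ℝ} {Z : ℝ → ℂ} {μ : ℝ} (P : Prof c φ k A B Z μ) :
    ContDiffOn ℝ ∞ Z (Icc (-1) 1) := by
  let F : ℝ → (ℝ × ℝ × ℝ × ℝ × ℂ) → (ℝ × ℝ × ℝ × ℝ × ℂ) := fun _ y =>
    (y.2.1, (c / 2) * (y.2.2.1 * Real.cos y.1 - y.2.2.2.1 * Real.sin y.1), Real.cos y.1 ^ 2,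
      -(Real.sin y.1 * Real.cos y.1), Complex.I * Complex.exp (y.1 * Complex.I))
  have hF : ContDiff ℝ ∞ (Function.uncurry F) := by
    have h1 : ContDiff ℝ ∞ (fun y : ℝ × (ℝ × ℝ × ℝ × ℝ × ℂ) => ((y.2.1 : ℝ) : ℂ)) :=
      Complex.ofRealCLM.contDiff.comp (by fun_prop)
    have h2 : ContDiff ℝ ∞ (fun y : ℝ × (ℝ × ℝ × ℝ × ℝ × ℂ) =>
        Complex.I * Complex.exp ((y.2.1 : ℝ) * Complex.I)) :=
      contDiff_const.mul ((h1.mul contDiff_const).cexp)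
    refine ContDiff.prodMk (by fun_prop) (ContDiff.prodMk (by fun_prop)
      (ContDiff.prodMk (by fun_prop) (ContDiff.prodMk (by fun_prop) h2)))
  have key : ContDiffOn ℝ ((⊤ : ℕ∞) : WithTop ℕ∞) (fun s => (φ s, k s, A s, B s, Z s))
      (Icc (-1) 1) := by
    apply ODE.contDiffOn_enat_Icc_of_hasDerivWithinAt (f := F) (u := univ) hF.contDiffOn
    · intro s hs
      exact ((P.dφ s hs).prodMk ((P.dk s hs).prodMk ((P.dA s hs).prodMk
        ((P.dB s hs).prodMk (P.dZ s hs))))).hasDerivWithinAt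
    · exact mapsTo_univ _ _
  exact key.snd.snd.snd.snd

noncomputable def arc (p : ℂ) (Z : ℝ → ℂ) (x : ℝ) : ℂ := p + Z (2 * x - 1)

theorem mem_s {x : ℝ} (hx : x ∈ Icc (0 : ℝ) 1) : 2 * x - 1 ∈ Icc (-1 : ℝ) 1 :=
  ⟨by linarith [hx.1], by linarith [hx.2]⟩

theorem dW_comp {E : Type} [NormedAddCommGroup E] [NormedSpace ℝ E] {f F : ℝ → E} {F' : E} {x : ℝ}
    (hx : x ∈ Icc (0 : ℝ) 1) (h : ∀ y ∈ Icc (0 : ℝ) 1, f y = F (2 * y - 1))
    (hF : HasDerivAt F F' (2 * x - 1)) : derivWithin f (Icc 0 1) x = (2 : ℝ) • F' := by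
  have h1 : HasDerivAt (fun y : ℝ => 2 * y - 1) 2 x := by
    simpa using ((hasDerivAt_id x).const_mul 2).sub_const 1
  exact dW_eq hx h (hF.scomp x h1)

namespace Prof
variable {c : ℝ} {φ k A B : ℝ → ℝ} {Z : ℝ → ℂ} {μ : ℝ} (P : Prof c φ k A B Z μ) (p : ℂ)
include P

theorem arc_dW {x : ℝ} (hx : x ∈ Icc (0 : ℝ) 1) : derivWithin (arc p Z) (Icc 0 1) x =
    (2 : ℝ) • (Complex.I * Complex.exp (φ (2 * x - 1) * Complex.I)) :=
  dW_comp (F := fun s => p + Z s) hx (fun _ _ => rfl) ((P.dZ _ (mem_s hx)).const_add p)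

theorem arc_speed {x : ℝ} (hx : x ∈ Icc (0 : ℝ) 1) :
    ‖derivWithin (arc p Z) (Icc 0 1) x‖ = 2 := by
  rw [P.arc_dW p hx, norm_smul, norm_mul, Complex.norm_exp_ofReal_mul_I]
  simp

theorem arc_ds {E : Type} [NormedAddCommGroup E] [NormedSpace ℝ E] {f F : ℝ → E} {F' : E} {x : ℝ}
    (hx : x ∈ Icc (0 : ℝ) 1) (h : ∀ y ∈ Icc (0 : ℝ) 1, f y = F (2 * y - 1))
    (hF : HasDerivAt F F' (2 * x - 1)) : ds (arc p Z) f x = F' := by
  unfold ds
  rw [P.arc_speed p hx, dW_comp hx h hF, smul_smul]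
  norm_num

theorem arc_tan {x : ℝ} (hx : x ∈ Icc (0 : ℝ) 1) : ds (arc p Z) (arc p Z) x =
    Complex.I * Complex.exp (φ (2 * x - 1) * Complex.I) :=
  P.arc_ds p (F := fun s => p + Z s) hx (fun _ _ => rfl) ((P.dZ _ (mem_s hx)).const_add p)

theorem arc_nrm {x : ℝ} (hx : x ∈ Icc (0 : ℝ) 1) : nrm (arc p Z) x =
    -Complex.exp (φ (2 * x - 1) * Complex.I) := by
  unfold nrm
  rw [P.arc_tan p hx, ← mul_assoc, Complex.I_mul_I, neg_one_mul]

theorem arc_curv {x : ℝ} (hx : x ∈ Icc (0 : ℝ) 1) : curv (arc p Z) x = k (2 * x - 1) := by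
  unfold curv
  have h1 : HasDerivAt (fun s : ℝ => Complex.I * Complex.exp (φ s * Complex.I))
      (Complex.I * (Complex.exp (φ (2 * x - 1) * Complex.I) * (k (2 * x - 1) * Complex.I)))
      (2 * x - 1) :=
    (((P.dφ _ (mem_s hx)).ofReal_comp.mul_const Complex.I).cexp).const_mul Complex.I
  rw [P.arc_ds p hx (fun y hy => P.arc_tan p hy) h1, P.arc_nrm p hx, inner_c]
  simp only [Complex.mul_re, Complex.mul_im, Complex.I_re, Complex.I_im, Complex.neg_re,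
    Complex.neg_im, Complex.exp_ofReal_mul_I_re, Complex.exp_ofReal_mul_I_im, Complex.ofReal_re,
    Complex.ofReal_im]
  have := Real.sin_sq_add_cos_sq (φ (2 * x - 1))
  linear_combination (k (2 * x - 1)) * this

theorem arc_dcurv {x : ℝ} (hx : x ∈ Icc (0 : ℝ) 1) : ds (arc p Z) (curv (arc p Z)) x =
    (c / 2) * (A (2 * x - 1) * Real.cos (φ (2 * x - 1)) -
      B (2 * x - 1) * Real.sin (φ (2 * x - 1))) :=
  P.arc_ds p hx (fun _ hy => P.arc_curv p hy) (P.dk _ (mem_s hx))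

theorem arc_vel {x : ℝ} (hx : x ∈ Icc (0 : ℝ) 1) :
    vel μ (arc p Z) x = -c * Real.cos (φ (2 * x - 1)) := by
  unfold vel
  have hs := mem_s hx
  have h1 := (((P.dA _ hs).mul (P.dφ _ hs).cos).sub ((P.dB _ hs).mul (P.dφ _ hs).sin)).const_mul
    (c / 2)
  rw [P.arc_ds p (F := fun s => (c / 2) * (A s * Real.cos (φ s) - B s * Real.sin (φ s))) hx
    (fun y hy => P.arc_dcurv p hy) h1, P.arc_curv p hx]
  have h2 := P.first _ hs
  have h3 := Real.sin_sq_add_cos_sq (φ (2 * x - 1))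
  linear_combination (-k (2 * x - 1)) * h2 - c * Real.cos (φ (2 * x - 1)) * h3

/-- the force exerted by the arc at an end is horizontal -/
theorem arc_force {x : ℝ} (hx : x ∈ Icc (0 : ℝ) 1) (hk : k (2 * x - 1) = 0)
    (hB : B (2 * x - 1) = 0) :
    (2 * ds (arc p Z) (curv (arc p Z)) x) • nrm (arc p Z) x - μ • ds (arc p Z) (arc p Z) x =
      ((-c * A (2 * x - 1) : ℝ) : ℂ) := by
  rw [P.arc_dcurv p hx, P.arc_nrm p hx, P.arc_tan p hx]
  have h2 := P.first _ (mem_s hx)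
  have h3 := Real.sin_sq_add_cos_sq (φ (2 * x - 1))
  rw [hk, hB] at h2
  rw [hB, ← h2]
  apply Complex.ext
  · simp only [Complex.sub_re, Complex.smul_re, Complex.mul_re, Complex.I_re, Complex.I_im,
      Complex.neg_re, Complex.exp_ofReal_mul_I_re, Complex.exp_ofReal_mul_I_im, Complex.ofReal_re,
      smul_eq_mul]
    linear_combination (-c * A (2 * x - 1)) * h3
  · simp only [Complex.sub_im, Complex.smul_im, Complex.mul_im, Complex.I_re, Complex.I_im,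
      Complex.neg_im, Complex.exp_ofReal_mul_I_re, Complex.exp_ofReal_mul_I_im, Complex.ofReal_im,
      smul_eq_mul]
    ring

theorem cos_pos {s : ℝ} (hs : s ∈ Icc (-1 : ℝ) 1) : 0 < Real.cos (φ s) := by
  have h1 := Real.one_sub_sq_div_two_le_cos (x := φ s)
  have h2 := abs_le.1 (P.small s hs)
  nlinarith [h2.1, h2.2]

end Prof

end Pool.Agent.MP_03af62_an
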