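import Pool.Agent.MP_03af62_an.Geom

open Set Filter Topology
open scoped ContDiff

namespace Pool.Agent.MP_03af62_an

def vtx8 (e : Fin 8 × Bool) : ℕ :=
  if e.2 then ![1, 3, 2, 3, 4, 5, 6, 7] e.1 else ![0, 2, 0, 1, 0, 1, 2, 3] e.1

noncomputable def net8 (μ a b : ℝ) : Net 8 :=
  ⟨vtx8, fun _ => False, ![μ, μ, 1 + a, 1 + b, 1, 1, 1, 1]⟩

noncomputable def mir (Z : ℝ → ℂ) (s : ℝ) : ℂ := -(starRingEnd ℂ) (Z s)

noncomputable def pL (t : ℝ) : ℂ := (((t - 1) / 20 : ℝ) : ℂ)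
noncomputable def pR (t : ℝ) : ℂ := (((1 - t) / 20 : ℝ) : ℂ)

noncomputable def flow8 (Z : ℝ → ℂ) (t : ℝ) : Fin 8 → ℝ → ℂ :=
  ![arc (pL t) Z, arc (pR t) (mir Z),
    seg (pL t + Z (-1)) (1 * ((1 - t) / 10)),
    seg (pL t + Z 1) (1 * ((1 - t) / 10)),
    seg (pL t + Z (-1)) ((-1) * (1 + t / 20)),
    seg (pL t + Z 1) ((-1) * (1 + t / 20)),
    seg (pR t + Z (-1)) (1 * (1 + t / 20)),
    seg (pR t + Z 1) (1 * (1 + t / 20))]

def S0 : Finset (Fin 8 × Bool) := {(0, false), (2, false), (4, false)}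
def S1 : Finset (Fin 8 × Bool) := {(0, true), (3, false), (5, false)}
def S2 : Finset (Fin 8 × Bool) := {(1, false), (2, true), (6, false)}
def S3 : Finset (Fin 8 × Bool) := {(1, true), (3, true), (7, false)}

theorem star_cases (μ a b : ℝ) (e : Fin 8 × Bool) :
    ((net8 μ a b).star e = S0 ∧ e ∈ S0) ∨ ((net8 μ a b).star e = S1 ∧ e ∈ S1) ∨
    ((net8 μ a b).star e = S2 ∧ e ∈ S2) ∨ ((net8 μ a b).star e = S3 ∧ e ∈ S3) ∨
      ((net8 μ a b).star e = {e} ∧ e.2 = true ∧ 4 ≤ e.1.val) := by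
  have : (net8 μ a b).star e = Finset.univ.filter fun e' => vtx8 e' = vtx8 e := rfl
  rw [this]
  clear this
  revert e
  decide

theorem star_two (μ a b : ℝ) (c : Bool) : ((net8 μ a b).star (2, c)).card = 3 := by
  have : (net8 μ a b).star (2, c) = Finset.univ.filter fun e' => vtx8 e' = vtx8 (2, c) := rfl
  rw [this]
  clear this
  revert c
  decide

theorem card_S0 : S0.card = 3 := by decide
theorem card_S1 : S1.card = 3 := by decide
theorem card_S2 : S2.card = 3 := by decide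
theorem card_S3 : S3.card = 3 := by decide

theorem pt_false : pt false = 0 := rfl
theorem pt_true : pt true = 1 := rfl
theorem pt_mem (b : Bool) : pt b ∈ Icc (0 : ℝ) 1 := by cases b <;> simp [pt]
theorem zero_mem01 : (0 : ℝ) ∈ Icc (0 : ℝ) 1 := by simp
theorem one_mem01 : (1 : ℝ) ∈ Icc (0 : ℝ) 1 := by simp

theorem flow8_0 (Z : ℝ → ℂ) (t : ℝ) : flow8 Z t 0 = arc (pL t) Z := rfl
theorem flow8_1 (Z : ℝ → ℂ) (t : ℝ) : flow8 Z t 1 = arc (pR t) (mir Z) := rfl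
theorem flow8_2 (Z : ℝ → ℂ) (t : ℝ) :
    flow8 Z t 2 = seg (pL t + Z (-1)) (1 * ((1 - t) / 10)) := rfl
theorem flow8_3 (Z : ℝ → ℂ) (t : ℝ) :
    flow8 Z t 3 = seg (pL t + Z 1) (1 * ((1 - t) / 10)) := rfl
theorem flow8_4 (Z : ℝ → ℂ) (t : ℝ) :
    flow8 Z t 4 = seg (pL t + Z (-1)) ((-1) * (1 + t / 20)) := rfl
theorem flow8_5 (Z : ℝ → ℂ) (t : ℝ) :
    flow8 Z t 5 = seg (pL t + Z 1) ((-1) * (1 + t / 20)) := rfl
theorem flow8_6 (Z : ℝ → ℂ) (t : ℝ) :
    flow8 Z t 6 = seg (pR t + Z (-1)) (1 * (1 + t / 20)) := rfl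
theorem flow8_7 (Z : ℝ → ℂ) (t : ℝ) :
    flow8 Z t 7 = seg (pR t + Z 1) (1 * (1 + t / 20)) := rfl

/-- every curve other than the two crossbars is a horizontal segment -/
theorem flow8_seg (Z : ℝ → ℂ) {t : ℝ} (ht : t ∈ Ico (0 : ℝ) 1) {i : Fin 8} (hi : i ≠ 0)
    (hi' : i ≠ 1) :
    ∃ (p : ℂ) (σ l : ℝ), (σ = 1 ∨ σ = -1) ∧ 0 < l ∧ flow8 Z t i = seg p (σ * l) := by
  have h1 : 0 < (1 - t) / 10 := by linarith [ht.2]
  have h2 : 0 < 1 + t / 20 := by linarith [ht.1]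
  fin_cases i
  · exact absurd rfl hi
  · exact absurd rfl hi'
  · exact ⟨_, _, _, Or.inl rfl, h1, flow8_2 Z t⟩
  · exact ⟨_, _, _, Or.inl rfl, h1, flow8_3 Z t⟩
  · exact ⟨_, _, _, Or.inr rfl, h2, flow8_4 Z t⟩
  · exact ⟨_, _, _, Or.inr rfl, h2, flow8_5 Z t⟩
  · exact ⟨_, _, _, Or.inl rfl, h2, flow8_6 Z t⟩
  · exact ⟨_, _, _, Or.inl rfl, h2, flow8_7 Z t⟩

theorem n0 : (2 : ℝ) * 0 - 1 = -1 := by norm_num
theorem n1 : (2 : ℝ) * 1 - 1 = 1 := by norm_num

theorem pos_S0 (Z : ℝ → ℂ) (t : ℝ) {e : Fin 8 × Bool} (he : e ∈ S0) :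
    flow8 Z t e.1 (pt e.2) = pL t + Z (-1) := by
  simp only [S0, Finset.mem_insert, Finset.mem_singleton] at he
  rcases he with rfl | rfl | rfl
  · simp only [flow8_0, arc, pt_false, n0]
  · simp [flow8_2, seg, pt]
  · simp [flow8_4, seg, pt]

theorem pos_S1 (Z : ℝ → ℂ) (t : ℝ) {e : Fin 8 × Bool} (he : e ∈ S1) :
    flow8 Z t e.1 (pt e.2) = pL t + Z 1 := by
  simp only [S1, Finset.mem_insert, Finset.mem_singleton] at he
  rcases he with rfl | rfl | rfl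
  · simp only [flow8_0, arc, pt_true, n1]
  · simp [flow8_3, seg, pt]
  · simp [flow8_5, seg, pt]

theorem mir_eq {Z : ℝ → ℂ} {s : ℝ} (h : (Z s).re = 0) : mir Z s = Z s := by
  apply Complex.ext <;> simp [mir, h]

theorem pos_S2 {Z : ℝ → ℂ} (hZ : (Z (-1)).re = 0) (t : ℝ) {e : Fin 8 × Bool} (he : e ∈ S2) :
    flow8 Z t e.1 (pt e.2) = pR t + Z (-1) := by
  simp only [S2, Finset.mem_insert, Finset.mem_singleton] at he
  rcases he with rfl | rfl | rfl
  · simp only [flow8_1, arc, pt_false, n0, mir_eq hZ]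
  · simp only [flow8_2, seg, pt_true, pL, pR]; push_cast; ring
  · simp [flow8_6, seg, pt]

theorem pos_S3 {Z : ℝ → ℂ} (hZ : (Z 1).re = 0) (t : ℝ) {e : Fin 8 × Bool} (he : e ∈ S3) :
    flow8 Z t e.1 (pt e.2) = pR t + Z 1 := by
  simp only [S3, Finset.mem_insert, Finset.mem_singleton] at he
  rcases he with rfl | rfl | rfl
  · simp only [flow8_1, arc, pt_true, n1, mir_eq hZ]
  · simp only [flow8_3, seg, pt_true, pL, pR]; push_cast; ring
  · simp [flow8_7, seg, pt]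

theorem pos_fixed (Z : ℝ → ℂ) (t : ℝ) {i : Fin 8} (hi : 4 ≤ i.val) :
    flow8 Z t i 1 = flow8 Z 0 i 1 := by
  fin_cases i
  · exact absurd hi (by decide)
  · exact absurd hi (by decide)
  · exact absurd hi (by decide)
  · exact absurd hi (by decide)
  · show flow8 Z t 4 1 = flow8 Z 0 4 1
    simp only [flow8_4, seg, pL]; push_cast; ring
  · show flow8 Z t 5 1 = flow8 Z 0 5 1
    simp only [flow8_5, seg, pL]; push_cast; ring
  · show flow8 Z t 6 1 = flow8 Z 0 6 1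
    simp only [flow8_6, seg, pR]; push_cast; ring
  · show flow8 Z t 7 1 = flow8 Z 0 7 1
    simp only [flow8_7, seg, pR]; push_cast; ring

/-- the vector `2 ∂_s k ν - μ τ` -/
noncomputable def force (m : ℝ) (γ : ℝ → ℂ) (x : ℝ) : ℂ :=
  (2 * ds γ (curv γ) x) • nrm γ x - m • ds γ γ x

theorem seg_force (m : ℝ) (p : ℂ) {σ l : ℝ} (hσ : σ = 1 ∨ σ = -1) (hl : 0 < l) {x : ℝ}
    (hx : x ∈ Icc (0 : ℝ) 1) : force m (seg p (σ * l)) x = ((-(m * σ) : ℝ) : ℂ) := by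
  unfold force
  rw [seg_dcurv p hσ hl hx, seg_tan p hσ hl hx]
  simp

theorem time_deriv (Z : ℝ → ℂ) {t : ℝ} (ht : t ∈ Ico (0 : ℝ) 1) (i : Fin 8) (x : ℝ) :
    ∃ v : ℝ, (i = 0 → v = 1 / 20) ∧ (i = 1 → v = -(1 / 20)) ∧
      derivWithin (fun u => flow8 Z u i x) (Ico 0 1) t = (v : ℂ) := by
  have hu := uniqueDiffOn_Ico (0 : ℝ) 1 t ht
  have hL : HasDerivAt pL ((1 / 20 : ℝ) : ℂ) t :=
    (((hasDerivAt_id t).sub_const 1).div_const 20).ofReal_comp
  have hR : HasDerivAt pR ((-(1 / 20) : ℝ) : ℂ) t := by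
    have := (((hasDerivAt_id t).const_sub 1).div_const 20).ofReal_comp
    refine HasDerivAt.congr_deriv this ?_
    push_cast; ring
  have hs : ∀ (q : ℝ → ℂ) (q' : ℝ) (z : ℂ) (r : ℝ → ℝ) (r' : ℝ), HasDerivAt q (q' : ℂ) t →
      HasDerivAt r r' t →
      derivWithin (fun u => seg (q u + z) (r u) x) (Ico 0 1) t = ((q' + x * r' : ℝ) : ℂ) := by
    intro q q' z r r' hq hr
    have := (hq.add_const z).add (hr.const_mul x).ofReal_comp
    have h2 := this.hasDerivWithinAt.derivWithin hu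
    rw [Complex.ofReal_add]
    exact h2
  have r1 : HasDerivAt (fun u : ℝ => 1 * ((1 - u) / 10)) (1 * ((-1) / 10)) t :=
    (((hasDerivAt_id t).const_sub 1).div_const 10).const_mul 1
  have r2 : HasDerivAt (fun u : ℝ => (-1) * (1 + u / 20)) ((-1) * (1 / 20)) t :=
    (((hasDerivAt_id t).div_const 20).const_add 1).const_mul (-1)
  have r3 : HasDerivAt (fun u : ℝ => 1 * (1 + u / 20)) (1 * (1 / 20)) t :=
    (((hasDerivAt_id t).div_const 20).const_add 1).const_mul 1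
  fin_cases i
  · exact ⟨1 / 20, fun _ => rfl, fun h => absurd h (by decide),
      (hL.add_const (Z (2 * x - 1))).hasDerivWithinAt.derivWithin hu⟩
  · exact ⟨-(1 / 20), fun h => absurd h (by decide), fun _ => rfl,
      (hR.add_const (mir Z (2 * x - 1))).hasDerivWithinAt.derivWithin hu⟩
  · exact ⟨_, fun h => absurd h (by decide), fun h => absurd h (by decide),
      hs pL _ (Z (-1)) _ _ hL r1⟩
  · exact ⟨_, fun h => absurd h (by decide), fun h => absurd h (by decide),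
      hs pL _ (Z 1) _ _ hL r1⟩
  · exact ⟨_, fun h => absurd h (by decide), fun h => absurd h (by decide),
      hs pL _ (Z (-1)) _ _ hL r2⟩
  · exact ⟨_, fun h => absurd h (by decide), fun h => absurd h (by decide),
      hs pL _ (Z 1) _ _ hL r2⟩
  · exact ⟨_, fun h => absurd h (by decide), fun h => absurd h (by decide),
      hs pR _ (Z (-1)) _ _ hR r3⟩
  · exact ⟨_, fun h => absurd h (by decide), fun h => absurd h (by decide),
      hs pR _ (Z 1) _ _ hR r3⟩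

theorem span_top {S : Set ℂ} {θ : ℝ} (hθ : 0 < Real.cos θ) (h1 : Complex.I * (1 : ℝ) ∈ S)
    (h2 : -Complex.exp (θ * Complex.I) ∈ S) : Submodule.span ℝ S = ⊤ := by
  rw [eq_top_iff]
  intro z _
  have e : z = (-(z.re / Real.cos θ)) • (-Complex.exp (θ * Complex.I)) +
      (z.im - z.re / Real.cos θ * Real.sin θ) • (Complex.I * (1 : ℝ)) := by
    apply Complex.ext
    · simp only [Complex.add_re, Complex.smul_re, Complex.neg_re, Complex.exp_ofReal_mul_I_re,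
        Complex.mul_re, Complex.I_re, Complex.I_im, Complex.ofReal_re, Complex.ofReal_im,
        smul_eq_mul]
      field_simp
      ring
    · simp only [Complex.add_im, Complex.smul_im, Complex.neg_im, Complex.exp_ofReal_mul_I_im,
        Complex.mul_im, Complex.I_re, Complex.I_im, Complex.ofReal_re, Complex.ofReal_im,
        smul_eq_mul]
      ring
  rw [e]
  exact Submodule.add_mem _ (Submodule.smul_mem _ _ (Submodule.subset_span h2))
    (Submodule.smul_mem _ _ (Submodule.subset_span h1))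

namespace Prof

section general
variable {c : ℝ} {φ k A B : ℝ → ℝ} {Z : ℝ → ℂ} {μ : ℝ} (P : Prof c φ k A B Z μ)
include P

theorem arc_regular (p : ℂ) {x : ℝ} (hx : x ∈ Icc (0 : ℝ) 1) :
    derivWithin (arc p Z) (Icc 0 1) x ≠ 0 := by
  intro h
  have := P.arc_speed p hx
  rw [h] at this
  simp at this

theorem arc_curv_end (p : ℂ) (b : Bool) : curv (arc p Z) (pt b) = 0 := by
  rw [P.arc_curv _ (pt_mem b)]
  cases b
  · rw [pt_false, n0]; exact P.k1'
  · rw [pt_true, n1]; exact P.k1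

theorem force0 (p : ℂ) : force μ (arc p Z) 0 = ((-c * A (-1) : ℝ) : ℂ) := by
  have := P.arc_force p zero_mem01 (by rw [n0]; exact P.k1') (by rw [n0]; exact P.B1')
  rw [n0] at this
  exact this

theorem force1 (p : ℂ) : force μ (arc p Z) 1 = ((-c * A 1 : ℝ) : ℂ) := by
  have := P.arc_force p one_mem01 (by rw [n1]; exact P.k1) (by rw [n1]; exact P.B1)
  rw [n1] at this
  exact this

theorem arc_inner (p : ℂ) {x : ℝ} (hx : x ∈ Icc (0 : ℝ) 1) :
    inner ℝ (c : ℂ) (nrm (arc p Z) x) = vel μ (arc p Z) x := by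
  rw [P.arc_vel _ hx, P.arc_nrm _ hx, inner_c]
  simp only [Complex.neg_re, Complex.exp_ofReal_mul_I_re, Complex.ofReal_re, Complex.ofReal_im]
  ring

end general

variable {φ k A B : ℝ → ℝ} {Z : ℝ → ℂ} {μ : ℝ} (P : Prof (1 / 20) φ k A B Z μ)
include P

theorem mirror' : Prof (-(1 / 20)) (fun s => -φ s) (fun s => -k s) A (fun s => -B s) (mir Z) μ :=
  P.mirror

theorem regular {t : ℝ} (ht : t ∈ Ico (0 : ℝ) 1) (i : Fin 8) {x : ℝ} (hx : x ∈ Icc (0 : ℝ) 1) :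
    derivWithin (flow8 Z t i) (Icc 0 1) x ≠ 0 := by
  by_cases hi : i = 0
  · subst hi; exact P.arc_regular _ hx
  by_cases hi' : i = 1
  · subst hi'; exact P.mirror'.arc_regular _ hx
  obtain ⟨p, σ, l, hσ, hl, e⟩ := flow8_seg Z ht hi hi'
  rw [e, seg_dW _ _ hx]
  have : σ * l ≠ 0 := by rcases hσ with rfl | rfl <;> simp [hl.ne']
  exact_mod_cast this

theorem curv_end {t : ℝ} (ht : t ∈ Ico (0 : ℝ) 1) (e : Fin 8 × Bool) :
    curv (flow8 Z t e.1) (pt e.2) = 0 := by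
  obtain ⟨i, b⟩ := e
  by_cases hi : i = 0
  · subst hi; exact P.arc_curv_end _ b
  by_cases hi' : i = 1
  · subst hi'; exact P.mirror'.arc_curv_end _ b
  obtain ⟨p, σ, l, hσ, hl, e⟩ := flow8_seg Z ht hi hi'
  show curv (flow8 Z t i) (pt b) = 0
  rw [e, seg_curv p hσ hl (pt_mem b)]

theorem bc {t : ℝ} (ht : t ∈ Ico (0 : ℝ) 1) :
    BC (net8 μ (-(1 / 20) * A (-1)) ((1 / 20) * A 1)) (flow8 Z 0) (flow8 Z t) := by
  have h1 : 0 < (1 - t) / 10 := by linarith [ht.2]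
  have h2 : 0 < 1 + t / 20 := by linarith [ht.1]
  intro e
  refine ⟨?_, fun h => h.elim, fun _ => ⟨P.curv_end ht e, ?_, ?_⟩⟩
  · intro e' he'
    rcases star_cases μ (-(1 / 20) * A (-1)) ((1 / 20) * A 1) e with
      ⟨h, he⟩ | ⟨h, he⟩ | ⟨h, he⟩ | ⟨h, he⟩ | ⟨h, -⟩
    · rw [h] at he'; rw [pos_S0 Z t he, pos_S0 Z t he']
    · rw [h] at he'; rw [pos_S1 Z t he, pos_S1 Z t he']
    · rw [h] at he'; rw [pos_S2 P.Z1' t he, pos_S2 P.Z1' t he']
    · rw [h] at he'; rw [pos_S3 P.Z1 t he, pos_S3 P.Z1 t he']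
    · rw [h, Finset.mem_singleton] at he'; rw [he']
  · intro hc
    rcases star_cases μ (-(1 / 20) * A (-1)) ((1 / 20) * A 1) e with
      ⟨h, -⟩ | ⟨h, -⟩ | ⟨h, -⟩ | ⟨h, -⟩ | ⟨-, h, hi⟩
    · rw [h, card_S0] at hc; omega
    · rw [h, card_S1] at hc; omega
    · rw [h, card_S2] at hc; omega
    · rw [h, card_S3] at hc; omega
    · rw [h]; exact pos_fixed Z t hi
  · intro hc
    show ∑ e' ∈ (net8 μ (-(1 / 20) * A (-1)) ((1 / 20) * A 1)).star e,
      (if e'.2 then (-1 : ℝ) else 1) •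
        force ((net8 μ (-(1 / 20) * A (-1)) ((1 / 20) * A 1)).weight e'.1) (flow8 Z t e'.1)
          (pt e'.2) = 0
    rcases star_cases μ (-(1 / 20) * A (-1)) ((1 / 20) * A 1) e with
      ⟨h, -⟩ | ⟨h, -⟩ | ⟨h, -⟩ | ⟨h, -⟩ | ⟨h, -⟩
    · rw [h, S0, Finset.sum_insert (by decide), Finset.sum_insert (by decide),
        Finset.sum_singleton]
      show (1 : ℝ) • force μ (arc (pL t) Z) 0 +
        ((1 : ℝ) • force (1 + -(1 / 20) * A (-1)) (seg (pL t + Z (-1)) (1 * ((1 - t) / 10))) 0 +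
          (1 : ℝ) • force 1 (seg (pL t + Z (-1)) ((-1) * (1 + t / 20))) 0) = 0
      rw [P.force0, seg_force _ _ (Or.inl rfl) h1 zero_mem01,
        seg_force _ _ (Or.inr rfl) h2 zero_mem01]
      simp only [one_smul]; push_cast; ring
    · rw [h, S1, Finset.sum_insert (by decide), Finset.sum_insert (by decide),
        Finset.sum_singleton]
      show (-1 : ℝ) • force μ (arc (pL t) Z) 1 +
        ((1 : ℝ) • force (1 + (1 / 20) * A 1) (seg (pL t + Z 1) (1 * ((1 - t) / 10))) 0 +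
          (1 : ℝ) • force 1 (seg (pL t + Z 1) ((-1) * (1 + t / 20))) 0) = 0
      rw [P.force1, seg_force _ _ (Or.inl rfl) h1 zero_mem01,
        seg_force _ _ (Or.inr rfl) h2 zero_mem01]
      simp only [one_smul, neg_smul]; push_cast; ring
    · rw [h, S2, Finset.sum_insert (by decide), Finset.sum_insert (by decide),
        Finset.sum_singleton]
      show (1 : ℝ) • force μ (arc (pR t) (mir Z)) 0 +
        ((-1 : ℝ) • force (1 + -(1 / 20) * A (-1)) (seg (pL t + Z (-1)) (1 * ((1 - t) / 10))) 1 +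
          (1 : ℝ) • force 1 (seg (pR t + Z (-1)) (1 * (1 + t / 20))) 0) = 0
      rw [P.mirror'.force0, seg_force _ _ (Or.inl rfl) h1 one_mem01,
        seg_force _ _ (Or.inl rfl) h2 zero_mem01]
      simp only [one_smul, neg_smul]; push_cast; ring
    · rw [h, S3, Finset.sum_insert (by decide), Finset.sum_insert (by decide),
        Finset.sum_singleton]
      show (-1 : ℝ) • force μ (arc (pR t) (mir Z)) 1 +
        ((-1 : ℝ) • force (1 + (1 / 20) * A 1) (seg (pL t + Z 1) (1 * ((1 - t) / 10))) 1 +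
          (1 : ℝ) • force 1 (seg (pR t + Z 1) (1 * (1 + t / 20))) 0) = 0
      rw [P.mirror'.force1, seg_force _ _ (Or.inl rfl) h1 one_mem01,
        seg_force _ _ (Or.inl rfl) h2 zero_mem01]
      simp only [one_smul, neg_smul]; push_cast; ring
    · rw [h, Finset.card_singleton] at hc; omega

theorem smooth_flow (i : Fin 8) :
    ContDiffOn ℝ ∞ (fun p : ℝ × ℝ => flow8 Z p.1 i p.2) (Ico 0 1 ×ˢ Icc 0 1) := by
  have hR : ∀ f : ℝ × ℝ → ℝ, ContDiff ℝ ∞ f → ContDiff ℝ ∞ (fun p => ((f p : ℝ) : ℂ)) :=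
    fun f hf => Complex.ofRealCLM.contDiff.comp hf
  have hL' : ContDiff ℝ ∞ (fun p : ℝ × ℝ => pL p.1) := hR _ (by fun_prop)
  have hR' : ContDiff ℝ ∞ (fun p : ℝ × ℝ => pR p.1) := hR _ (by fun_prop)
  have hs : ∀ (q : ℝ → ℂ) (z : ℂ) (r : ℝ → ℝ), ContDiff ℝ ∞ (fun p : ℝ × ℝ => q p.1) →
      ContDiff ℝ ∞ r → ContDiff ℝ ∞ (fun p : ℝ × ℝ => seg (q p.1 + z) (r p.1) p.2) := by
    intro q z r hq hr
    unfold seg
    exact (hq.add contDiff_const).add (hR _ (by fun_prop))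
  fin_cases i
  · show ContDiffOn ℝ ∞ (fun p : ℝ × ℝ => pL p.1 + Z (2 * p.2 - 1)) _
    refine hL'.contDiffOn.add ?_
    exact P.smooth.comp (f := fun p : ℝ × ℝ => 2 * p.2 - 1) (by fun_prop)
      (fun p hp => mem_s hp.2)
  · show ContDiffOn ℝ ∞ (fun p : ℝ × ℝ => pR p.1 + mir Z (2 * p.2 - 1)) _
    refine hR'.contDiffOn.add ?_
    exact P.mirror'.smooth.comp (f := fun p : ℝ × ℝ => 2 * p.2 - 1) (by fun_prop)
      (fun p hp => mem_s hp.2)
  · exact (hs pL (Z (-1)) (fun t => 1 * ((1 - t) / 10)) hL' (by fun_prop)).contDiffOn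
  · exact (hs pL (Z 1) (fun t => 1 * ((1 - t) / 10)) hL' (by fun_prop)).contDiffOn
  · exact (hs pL (Z (-1)) (fun t => (-1) * (1 + t / 20)) hL' (by fun_prop)).contDiffOn
  · exact (hs pL (Z 1) (fun t => (-1) * (1 + t / 20)) hL' (by fun_prop)).contDiffOn
  · exact (hs pR (Z (-1)) (fun t => 1 * (1 + t / 20)) hR' (by fun_prop)).contDiffOn
  · exact (hs pR (Z 1) (fun t => 1 * (1 + t / 20)) hR' (by fun_prop)).contDiffOn

theorem inner_eq_vel (a b : ℝ) {t : ℝ} (ht : t ∈ Ico (0 : ℝ) 1) (i : Fin 8) {x : ℝ}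
    (hx : x ∈ Icc (0 : ℝ) 1) (v : ℝ) (hv : i = 0 → v = 1 / 20) (hv' : i = 1 → v = -(1 / 20)) :
    inner ℝ (v : ℂ) (nrm (flow8 Z t i) x) = vel ((net8 μ a b).weight i) (flow8 Z t i) x := by
  by_cases hi : i = 0
  · subst hi
    rw [hv rfl]
    exact P.arc_inner _ hx
  by_cases hi' : i = 1
  · subst hi'
    rw [hv' rfl]
    exact P.mirror'.arc_inner _ hx
  obtain ⟨p, σ, l, hσ, hl, e⟩ := flow8_seg Z ht hi hi'
  rw [e, seg_vel _ p hσ hl hx, seg_nrm p hσ hl hx, inner_c]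
  simp

theorem isFlow : IsFlow (net8 μ (-(1 / 20) * A (-1)) ((1 / 20) * A 1)) 1 (flow8 Z) := by
  refine ⟨P.smooth_flow, fun t ht => ⟨P.bc ht, fun i x hx => ⟨P.regular ht i hx, ?_⟩⟩⟩
  obtain ⟨v, hv, hv', e⟩ := time_deriv Z ht i x
  rw [e]
  exact P.inner_eq_vel _ _ ht i hx v hv hv'

theorem connected : IsConnected (⋃ i, flow8 Z 0 i '' Icc 0 1) := by
  have h0 : (0 : ℝ) ∈ Ico (0 : ℝ) 1 := by simp
  have hsm : ∀ i, ContDiffOn ℝ ∞ (flow8 Z 0 i) (Icc 0 1) := fun i =>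
    (P.smooth_flow i).comp (f := fun x : ℝ => ((0 : ℝ), x)) (by fun_prop) (fun x hx => ⟨h0, hx⟩)
  have hpc : ∀ i, IsPreconnected (flow8 Z 0 i '' Icc 0 1) := fun i =>
    isPreconnected_Icc.image _ (hsm i).continuousOn
  refine ⟨⟨flow8 Z 0 0 0, mem_iUnion.2 ⟨0, 0, zero_mem01, rfl⟩⟩, ?_⟩
  set K : Set ℂ := (flow8 Z 0 0 '' Icc 0 1 ∪ flow8 Z 0 2 '' Icc 0 1) ∪ flow8 Z 0 1 '' Icc 0 1
    with hK
  have m : ∀ (i : Fin 8) (b : Bool) (z : ℂ), flow8 Z 0 i (pt b) = z →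
      z ∈ flow8 Z 0 i '' Icc 0 1 := fun i b z h => ⟨pt b, pt_mem b, h⟩
  have hKc : IsPreconnected K :=
    ((hpc 0).union (pL 0 + Z (-1)) (m 0 false _ (pos_S0 Z 0 (e := (0, false)) (by decide)))
      (m 2 false _ (pos_S0 Z 0 (e := (2, false)) (by decide))) (hpc 2)).union (pR 0 + Z (-1))
      (Or.inr (m 2 true _ (pos_S2 P.Z1' 0 (e := (2, true)) (by decide))))
      (m 1 false _ (pos_S2 P.Z1' 0 (e := (1, false)) (by decide))) (hpc 1)
  have e : (⋃ i, flow8 Z 0 i '' Icc 0 1) = ⋃ i, (K ∪ flow8 Z 0 i '' Icc 0 1) := by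
    apply Subset.antisymm
    · exact iUnion_mono fun i => subset_union_right
    · have su := fun i => subset_iUnion (fun i => flow8 Z 0 i '' Icc 0 1) i
      exact iUnion_subset fun i =>
        union_subset (union_subset (union_subset (su 0) (su 2)) (su 1)) (su i)
  rw [e]
  have q0 : pL 0 + Z (-1) ∈ K :=
    Or.inl (Or.inl (m 0 false _ (pos_S0 Z 0 (e := (0, false)) (by decide))))
  have q1 : pL 0 + Z 1 ∈ K :=
    Or.inl (Or.inl (m 0 true _ (pos_S1 Z 0 (e := (0, true)) (by decide))))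
  have q2 : pR 0 + Z (-1) ∈ K := Or.inr (m 1 false _ (pos_S2 P.Z1' 0 (e := (1, false)) (by decide)))
  have q3 : pR 0 + Z 1 ∈ K := Or.inr (m 1 true _ (pos_S3 P.Z1 0 (e := (1, true)) (by decide)))
  apply isPreconnected_iUnion
  · exact ⟨pL 0 + Z (-1), mem_iInter.2 fun i => Or.inl q0⟩
  · intro i
    have a0 : ∀ j : Fin 8, (j, false) ∈ S0 → IsPreconnected (K ∪ flow8 Z 0 j '' Icc 0 1) :=
      fun j hj => hKc.union _ q0 (m j false _ (pos_S0 Z 0 (e := (j, false)) hj)) (hpc j)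
    have a1 : ∀ j : Fin 8, (j, false) ∈ S1 → IsPreconnected (K ∪ flow8 Z 0 j '' Icc 0 1) :=
      fun j hj => hKc.union _ q1 (m j false _ (pos_S1 Z 0 (e := (j, false)) hj)) (hpc j)
    have a2 : ∀ j : Fin 8, (j, false) ∈ S2 → IsPreconnected (K ∪ flow8 Z 0 j '' Icc 0 1) :=
      fun j hj => hKc.union _ q2 (m j false _ (pos_S2 P.Z1' 0 (e := (j, false)) hj)) (hpc j)
    have a3 : ∀ j : Fin 8, (j, false) ∈ S3 → IsPreconnected (K ∪ flow8 Z 0 j '' Icc 0 1) :=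
      fun j hj => hKc.union _ q3 (m j false _ (pos_S3 P.Z1 0 (e := (j, false)) hj)) (hpc j)
    fin_cases i
    · exact a0 0 (by decide)
    · exact a2 1 (by decide)
    · exact a0 2 (by decide)
    · exact a1 3 (by decide)
    · exact a0 4 (by decide)
    · exact a1 5 (by decide)
    · exact a2 6 (by decide)
    · exact a3 7 (by decide)

theorem admissible : Admissible (net8 μ (-(1 / 20) * A (-1)) ((1 / 20) * A 1)) (flow8 Z 0) := by
  have h0 : (0 : ℝ) ∈ Ico (0 : ℝ) 1 := by simp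
  have hsm : ∀ i, ContDiffOn ℝ ∞ (flow8 Z 0 i) (Icc 0 1) := fun i =>
    (P.smooth_flow i).comp (f := fun x : ℝ => ((0 : ℝ), x)) (by fun_prop) (fun x hx => ⟨h0, hx⟩)
  refine ⟨fun i => ⟨hsm i, fun x hx => P.regular h0 i hx⟩, P.connected, P.bc h0,
    fun e => ⟨?_, ?_⟩⟩
  · intro _ hc
    have l1 : (0 : ℝ) < (1 - 0) / 10 := by norm_num
    rcases star_cases μ (-(1 / 20) * A (-1)) ((1 / 20) * A 1) e with
      ⟨h, -⟩ | ⟨h, -⟩ | ⟨h, -⟩ | ⟨h, -⟩ | ⟨h, -⟩
    · rw [h]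
      refine span_top (P.cos_pos (mem_s zero_mem01)) ⟨(2, false), by simp [S0], ?_⟩
        ⟨(0, false), by simp [S0], ?_⟩
      · exact seg_nrm _ (Or.inl rfl) l1 zero_mem01
      · exact P.arc_nrm _ zero_mem01
    · rw [h]
      refine span_top (P.cos_pos (mem_s one_mem01)) ⟨(3, false), by simp [S1], ?_⟩
        ⟨(0, true), by simp [S1], ?_⟩
      · exact seg_nrm _ (Or.inl rfl) l1 zero_mem01
      · exact P.arc_nrm _ one_mem01
    · rw [h]
      refine span_top (P.mirror'.cos_pos (mem_s zero_mem01)) ⟨(2, true), by simp [S2], ?_⟩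
        ⟨(1, false), by simp [S2], ?_⟩
      · exact seg_nrm _ (Or.inl rfl) l1 one_mem01
      · exact P.mirror'.arc_nrm _ zero_mem01
    · rw [h]
      refine span_top (P.mirror'.cos_pos (mem_s one_mem01)) ⟨(3, true), by simp [S3], ?_⟩
        ⟨(1, true), by simp [S3], ?_⟩
      · exact seg_nrm _ (Or.inl rfl) l1 one_mem01
      · exact P.mirror'.arc_nrm _ one_mem01
    · rw [h, Finset.card_singleton] at hc; omega
  · have key : ∀ (S : Finset (Fin 8 × Bool)) (v : ℝ),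
        (net8 μ (-(1 / 20) * A (-1)) ((1 / 20) * A 1)).star e = S → (S.card = 1 → v = 0) →
        (∀ e' ∈ S, e'.1 = 0 → v = 1 / 20) → (∀ e' ∈ S, e'.1 = 1 → v = -(1 / 20)) →
        ∃ w : ℂ, ((net8 μ (-(1 / 20) * A (-1)) ((1 / 20) * A 1)).clamped
            ((net8 μ (-(1 / 20) * A (-1)) ((1 / 20) * A 1)).vtx e) ∨
          ((net8 μ (-(1 / 20) * A (-1)) ((1 / 20) * A 1)).star e).card = 1 → w = 0) ∧
          ∀ e' ∈ (net8 μ (-(1 / 20) * A (-1)) ((1 / 20) * A 1)).star e,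
            inner ℝ w (nrm (flow8 Z 0 e'.1) (pt e'.2)) =
              vel ((net8 μ (-(1 / 20) * A (-1)) ((1 / 20) * A 1)).weight e'.1) (flow8 Z 0 e'.1)
                (pt e'.2) := by
      intro S v hS hc ha hb
      refine ⟨(v : ℂ), ?_, fun e' he' => ?_⟩
      · rintro (h | h)
        · exact h.elim
        · rw [hS] at h; rw [hc h]; simp
      · rw [hS] at he'
        exact P.inner_eq_vel _ _ h0 e'.1 (pt_mem _) v (ha e' he') (hb e' he')
    rcases star_cases μ (-(1 / 20) * A (-1)) ((1 / 20) * A 1) e with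
      ⟨h, -⟩ | ⟨h, -⟩ | ⟨h, -⟩ | ⟨h, -⟩ | ⟨h, -, hi⟩
    · exact key S0 (1 / 20) h (fun hc => by rw [card_S0] at hc; omega) (fun _ _ _ => rfl)
        (fun e' he' h1 => absurd h1 (by revert e'; decide))
    · exact key S1 (1 / 20) h (fun hc => by rw [card_S1] at hc; omega) (fun _ _ _ => rfl)
        (fun e' he' h1 => absurd h1 (by revert e'; decide))
    · exact key S2 (-(1 / 20)) h (fun hc => by rw [card_S2] at hc; omega)
        (fun e' he' h1 => absurd h1 (by revert e'; decide)) (fun _ _ _ => rfl)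
    · exact key S3 (-(1 / 20)) h (fun hc => by rw [card_S3] at hc; omega)
        (fun e' he' h1 => absurd h1 (by revert e'; decide)) (fun _ _ _ => rfl)
    · refine key {e} 0 h (fun _ => rfl) (fun e' he' h1 => ?_) (fun e' he' h1 => ?_)
      · rw [Finset.mem_singleton] at he'; subst he'; rw [h1] at hi; exact absurd hi (by decide)
      · rw [Finset.mem_singleton] at he'; subst he'; rw [h1] at hi; exact absurd hi (by decide)

end Prof

theorem len_tendsto (Z : ℝ → ℂ) : Tendsto (fun t => len (flow8 Z t 2)) (𝓝[<] 1) (𝓝 0) := by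
  have e : (fun t => len (flow8 Z t 2)) = fun t : ℝ => |1 * ((1 - t) / 10)| := by
    funext t; rw [flow8_2, seg_len]
  rw [e]
  have hc : Continuous fun t : ℝ => |1 * ((1 - t) / 10)| := by fun_prop
  have := hc.tendsto 1
  simp only [sub_self, zero_div, mul_zero, abs_zero] at this
  exact this.mono_left nhdsWithin_le_nhds

theorem not_extend (Z : ℝ → ℂ) (D : Net 8) {T' : ℝ} (hT : 1 < T') (γ' : ℝ → Fin 8 → ℝ → ℂ)
    (hf : IsFlow D T' γ')
    (h : ∀ t ∈ Ico (0 : ℝ) 1, ∀ i, γ' t i '' Icc 0 1 = flow8 Z t i '' Icc 0 1) : False := by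
  have h1 : (1 : ℝ) ∈ Ico 0 T' := ⟨zero_le_one, hT⟩
  have hconst : ∀ x ∈ Icc (0 : ℝ) 1, γ' 1 2 x = Z (-1) := by
    intro x hx
    have hc : ContinuousWithinAt (fun t => γ' t 2 x) (Ico 0 T') 1 :=
      ((hf.1 2).continuousOn.comp (f := fun t : ℝ => (t, x)) (by fun_prop)
        (fun t ht => ⟨ht, hx⟩)) 1 h1
    have hmem : Ico (0 : ℝ) 1 ∈ 𝓝[<] (1 : ℝ) := Ico_mem_nhdsLT zero_lt_one
    have hle : 𝓝[<] (1 : ℝ) ≤ 𝓝[Ico 0 T'] 1 := by
      rw [nhdsWithin_le_iff]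
      exact mem_of_superset hmem (fun t ht => ⟨ht.1, ht.2.trans hT⟩)
    have t1 : Tendsto (fun t => γ' t 2 x) (𝓝[<] 1) (𝓝 (γ' 1 2 x)) := hc.tendsto.mono_left hle
    have t2 : Tendsto (fun t => γ' t 2 x) (𝓝[<] 1) (𝓝 (Z (-1))) := by
      rw [tendsto_iff_norm_sub_tendsto_zero]
      have hz : Tendsto (fun t : ℝ => (1 - t) / 20) (𝓝[<] 1) (𝓝 0) := by
        have hc : Continuous fun t : ℝ => (1 - t) / 20 := by fun_prop
        have := hc.tendsto 1
        simp only [sub_self, zero_div] at this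
        exact this.mono_left nhdsWithin_le_nhds
      refine squeeze_zero' (Eventually.of_forall fun _ => norm_nonneg _) ?_ hz
      filter_upwards [hmem] with t ht
      have hm : γ' t 2 x ∈ flow8 Z t 2 '' Icc 0 1 := by
        rw [← h t ht 2]; exact ⟨x, hx, rfl⟩
      obtain ⟨y, hy, e⟩ := hm
      rw [← e, flow8_2, seg]
      have : pL t + Z (-1) + ((y * (1 * ((1 - t) / 10)) : ℝ) : ℂ) - Z (-1) =
          (((2 * y - 1) * ((1 - t) / 20) : ℝ) : ℂ) := by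
        unfold pL; push_cast; ring
      rw [this, Complex.norm_real, Real.norm_eq_abs, abs_le]
      constructor <;> nlinarith [hy.1, hy.2, ht.2]
    exact tendsto_nhds_unique t1 t2
  exact ((hf.2 1 h1).2 2 0 zero_mem01).1 (dW_eq zero_mem01 hconst (hasDerivAt_const _ _))

theorem main : ∃ (N : ℕ) (D : Net N) (T : ℝ) (γ : ℝ → Fin N → ℝ → ℂ),
    (∀ i, 0 < D.weight i) ∧
    (∀ e, ¬ D.clamped (D.vtx e) ∧ ((D.star e).card = 1 ∨ (D.star e).card = 3)) ∧
    0 < T ∧ Admissible D (γ 0) ∧ IsFlow D T γ ∧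
    (¬ ∃ T' > T, ∃ γ' : ℝ → Fin N → ℝ → ℂ, IsFlow D T' γ' ∧
      ∀ t ∈ Ico 0 T, ∀ i, γ' t i '' Icc 0 1 = γ t i '' Icc 0 1) ∧
    ∃ i, (∀ b, (D.star (i, b)).card = 3) ∧
      Tendsto (fun t => len (γ t i)) (𝓝[<] T) (𝓝 0) := by
  obtain ⟨φ, k, A, B, Z, μ, P⟩ := exists_prof
  refine ⟨8, net8 μ (-(1 / 20) * A (-1)) ((1 / 20) * A 1), 1, flow8 Z, ?_, ?_, one_pos,
    P.admissible, P.isFlow, ?_, 2, star_two _ _ _, len_tendsto Z⟩
  · intro i
    have h1 := P.A1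
    have h2 := P.A1'
    fin_cases i
    · exact P.pos
    · exact P.pos
    · show 0 < 1 + -(1 / 20) * A (-1)
      linarith
    · show 0 < 1 + (1 / 20) * A 1
      linarith
    · exact one_pos
    · exact one_pos
    · exact one_pos
    · exact one_pos
  · intro e
    refine ⟨fun h => h, ?_⟩
    rcases star_cases μ (-(1 / 20) * A (-1)) ((1 / 20) * A 1) e with
      ⟨h, -⟩ | ⟨h, -⟩ | ⟨h, -⟩ | ⟨h, -⟩ | ⟨h, -⟩
    · rw [h]; exact Or.inr card_S0
    · rw [h]; exact Or.inr card_S1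
    · rw [h]; exact Or.inr card_S2
    · rw [h]; exact Or.inr card_S3
    · rw [h]; exact Or.inl (Finset.card_singleton _)
  · rintro ⟨T', hT, γ', hf, h⟩
    exact not_extend Z _ hT γ' hf h

end Pool.Agent.MP_03af62_an
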