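import Mathlib

/-! Existence of the travelling profile by a contraction argument. -/

open Set

namespace Pool.Agent.MP_03af62_an

noncomputable def prim (f : ℝ → ℝ) (s : ℝ) : ℝ := ∫ u in (0 : ℝ)..s, f u

theorem prim_hasDerivAt {f : ℝ → ℝ} (hf : Continuous f) (s : ℝ) : HasDerivAt (prim f) (f s) s :=
  (hf.integral_hasStrictDerivAt 0 s).hasDerivAt

theorem prim_continuous {f : ℝ → ℝ} (hf : Continuous f) : Continuous (prim f) :=
  continuous_iff_continuousAt.2 fun s => (prim_hasDerivAt hf s).continuousAt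

theorem prim_zero (f : ℝ → ℝ) : prim f 0 = 0 := by simp [prim]

theorem prim_neg_of_odd {f : ℝ → ℝ} (h : ∀ s, f (-s) = -f s) (s : ℝ) : prim f (-s) = prim f s := by
  unfold prim
  have h1 := intervalIntegral.integral_comp_neg (a := 0) (b := s) f
  simp only [h, intervalIntegral.integral_neg, neg_zero] at h1
  rw [intervalIntegral.integral_symm]
  linarith

theorem prim_neg_of_even {f : ℝ → ℝ} (h : ∀ s, f (-s) = f s) (s : ℝ) :
    prim f (-s) = -prim f s := by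
  unfold prim
  have h1 := intervalIntegral.integral_comp_neg (a := 0) (b := s) f
  simp only [h, neg_zero] at h1
  rw [intervalIntegral.integral_symm]
  linarith

theorem abs_prim_le {f : ℝ → ℝ} {D : ℝ} (h : ∀ u ∈ Icc (-1 : ℝ) 1, |f u| ≤ D) {s : ℝ}
    (hs : s ∈ Icc (-1 : ℝ) 1) : |prim f s| ≤ D := by
  have hD : 0 ≤ D := (abs_nonneg _).trans (h 0 (by norm_num))
  have h1 : ‖∫ u in (0 : ℝ)..s, f u‖ ≤ D * |s - 0| := by
    apply intervalIntegral.norm_integral_le_of_norm_le_const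
    intro x hx
    apply h
    rcases le_total 0 s with h0 | h0
    · rw [uIoc_of_le h0] at hx
      exact ⟨by linarith [hx.1], hx.2.trans hs.2⟩
    · rw [uIoc_of_ge h0] at hx
      exact ⟨by linarith [hx.1, hs.1], by linarith [hx.2]⟩
  have h2 : |s - 0| ≤ 1 := by rw [sub_zero]; exact abs_le.2 hs
  calc |prim f s| ≤ D * |s - 0| := h1
    _ ≤ D * 1 := by gcongr
    _ = D := mul_one D

theorem abs_prim_sub_le {f g : ℝ → ℝ} (hf : Continuous f) (hg : Continuous g) {D : ℝ}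
    (h : ∀ u ∈ Icc (-1 : ℝ) 1, |f u - g u| ≤ D) {s : ℝ} (hs : s ∈ Icc (-1 : ℝ) 1) :
    |prim f s - prim g s| ≤ D := by
  have : prim f s - prim g s = prim (fun u => f u - g u) s := by
    unfold prim
    rw [intervalIntegral.integral_sub (hf.intervalIntegrable _ _) (hg.intervalIntegrable _ _)]
  rw [this]
  exact abs_prim_le h hs

noncomputable def fA (ψ : ℝ → ℝ) : ℝ → ℝ := prim fun u => Real.cos (ψ u) ^ 2
noncomputable def fH (ψ : ℝ → ℝ) : ℝ → ℝ := prim fun u => Real.sin (ψ u) * Real.cos (ψ u)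
noncomputable def fB (ψ : ℝ → ℝ) (s : ℝ) : ℝ := fH ψ 1 - fH ψ s
noncomputable def fg (ψ : ℝ → ℝ) (s : ℝ) : ℝ :=
  (1 / 40) * (fA ψ s * Real.cos (ψ s) - fB ψ s * Real.sin (ψ s))
noncomputable def fk (ψ : ℝ → ℝ) (s : ℝ) : ℝ := prim (fg ψ) s - prim (fg ψ) 1
noncomputable def fPhi (ψ : ℝ → ℝ) : ℝ → ℝ := prim (fk ψ)

section cont
variable {ψ : ℝ → ℝ} (hψ : Continuous ψ)
include hψ

theorem fA_cont : Continuous (fA ψ) := prim_continuous (by fun_prop)
theorem fH_cont : Continuous (fH ψ) := prim_continuous (by fun_prop)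
theorem fB_cont : Continuous (fB ψ) := continuous_const.sub (fH_cont hψ)
theorem fg_cont : Continuous (fg ψ) := by
  have h1 := fA_cont hψ
  have h2 := fB_cont hψ
  unfold fg
  fun_prop
theorem fk_cont : Continuous (fk ψ) := (prim_continuous (fg_cont hψ)).sub continuous_const
theorem fPhi_cont : Continuous (fPhi ψ) := prim_continuous (fk_cont hψ)

end cont

section odd
variable {ψ : ℝ → ℝ} (ho : ∀ s, ψ (-s) = -ψ s)
include ho

theorem fA_odd (s : ℝ) : fA ψ (-s) = -fA ψ s := prim_neg_of_even (fun u => by simp [ho]) s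
theorem fH_even (s : ℝ) : fH ψ (-s) = fH ψ s := prim_neg_of_odd (fun u => by simp [ho]) s
theorem fB_even (s : ℝ) : fB ψ (-s) = fB ψ s := by simp [fB, fH_even ho]
theorem fg_odd (s : ℝ) : fg ψ (-s) = -fg ψ s := by
  simp only [fg, fA_odd ho, fB_even ho, ho, Real.cos_neg, Real.sin_neg]; ring
theorem fk_even (s : ℝ) : fk ψ (-s) = fk ψ s := by
  simp only [fk, prim_neg_of_odd (fg_odd ho)]
theorem fPhi_odd (s : ℝ) : fPhi ψ (-s) = -fPhi ψ s := prim_neg_of_even (fk_even ho) s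

end odd

theorem one_mem : (1 : ℝ) ∈ Icc (-1 : ℝ) 1 := by norm_num

theorem abs_fA_le (ψ : ℝ → ℝ) {s : ℝ} (hs : s ∈ Icc (-1 : ℝ) 1) : |fA ψ s| ≤ 1 :=
  abs_prim_le (fun u _ => by
    rw [abs_of_nonneg (sq_nonneg _)]; exact Real.cos_sq_le_one _) hs

theorem abs_fB_le (ψ : ℝ → ℝ) {D : ℝ} (h : ∀ u ∈ Icc (-1 : ℝ) 1, |Real.sin (ψ u)| ≤ D) {s : ℝ}
    (hs : s ∈ Icc (-1 : ℝ) 1) : |fB ψ s| ≤ 2 * D := by
  have key : ∀ s ∈ Icc (-1 : ℝ) 1, |fH ψ s| ≤ D := fun s hs =>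
    abs_prim_le (fun u hu => by
      rw [abs_mul]
      calc |Real.sin (ψ u)| * |Real.cos (ψ u)| ≤ D * 1 :=
            mul_le_mul (h u hu) (Real.abs_cos_le_one _) (abs_nonneg _)
              ((abs_nonneg _).trans (h u hu))
        _ = D := mul_one D) hs
  have h1 := abs_le.1 (key 1 one_mem)
  have h2 := abs_le.1 (key s hs)
  unfold fB
  rw [abs_le]; constructor <;> linarith [h1.1, h1.2, h2.1, h2.2]

theorem abs_fg_le (ψ : ℝ → ℝ) {s : ℝ} (hs : s ∈ Icc (-1 : ℝ) 1) : |fg ψ s| ≤ 3 / 40 := by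
  have h1 := abs_fA_le ψ hs
  have h2 := abs_fB_le ψ (D := 1) (fun u _ => Real.abs_sin_le_one _) hs
  have h3 : |fA ψ s * Real.cos (ψ s)| ≤ 1 := by
    rw [abs_mul]
    calc _ ≤ 1 * 1 := mul_le_mul h1 (Real.abs_cos_le_one _) (abs_nonneg _) zero_le_one
      _ = 1 := one_mul 1
  have h4 : |fB ψ s * Real.sin (ψ s)| ≤ 2 := by
    rw [abs_mul]
    calc _ ≤ (2 * 1) * 1 := mul_le_mul h2 (Real.abs_sin_le_one _) (abs_nonneg _) (by norm_num)
      _ = 2 := by norm_num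
  have h3' := abs_le.1 h3
  have h4' := abs_le.1 h4
  unfold fg
  rw [abs_le]; constructor <;> linarith [h3'.1, h3'.2, h4'.1, h4'.2]

theorem abs_fk_le (ψ : ℝ → ℝ) {s : ℝ} (hs : s ∈ Icc (-1 : ℝ) 1) : |fk ψ s| ≤ 3 / 20 := by
  have h1 := abs_le.1 (abs_prim_le (fun u hu => abs_fg_le ψ hu) hs)
  have h2 := abs_le.1 (abs_prim_le (fun u hu => abs_fg_le ψ hu) one_mem)
  unfold fk
  rw [abs_le]; constructor <;> linarith [h1.1, h1.2, h2.1, h2.2]

theorem abs_fPhi_le (ψ : ℝ → ℝ) {s : ℝ} (hs : s ∈ Icc (-1 : ℝ) 1) : |fPhi ψ s| ≤ 3 / 20 :=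
  abs_prim_le (fun _ hu => abs_fk_le ψ hu) hs

theorem abs_mul_sub_mul_le {a b a' b' P Q R S : ℝ} (h1 : |a - a'| ≤ P) (h2 : |b| ≤ Q)
    (h3 : |a'| ≤ R) (h4 : |b - b'| ≤ S) : |a * b - a' * b'| ≤ P * Q + R * S := by
  have e : a * b - a' * b' = (a - a') * b + a' * (b - b') := by ring
  rw [e]
  refine (abs_add_le _ _).trans ?_
  rw [abs_mul, abs_mul]
  exact add_le_add (mul_le_mul h1 h2 (abs_nonneg _) ((abs_nonneg _).trans h1))
    (mul_le_mul h3 h4 (abs_nonneg _) ((abs_nonneg _).trans h3))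

theorem fPhi_lip {ψ χ : ℝ → ℝ} (hψ : Continuous ψ) (hχ : Continuous χ) {δ : ℝ}
    (h : ∀ u, |ψ u - χ u| ≤ δ) {s : ℝ} (hs : s ∈ Icc (-1 : ℝ) 1) :
    |fPhi ψ s - fPhi χ s| ≤ (1 / 2) * δ := by
  have hδ : 0 ≤ δ := (abs_nonneg _).trans (h 0)
  have hc : ∀ u, |Real.cos (ψ u) - Real.cos (χ u)| ≤ δ := fun u =>
    (Real.abs_cos_sub_cos_le _ _).trans (h u)
  have hsn : ∀ u, |Real.sin (ψ u) - Real.sin (χ u)| ≤ δ := fun u =>
    (Real.abs_sin_sub_sin_le _ _).trans (h u)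
  have hA : ∀ s ∈ Icc (-1 : ℝ) 1, |fA ψ s - fA χ s| ≤ 2 * δ := fun s hs =>
    abs_prim_sub_le (by fun_prop) (by fun_prop) (fun u _ => by
      have := abs_mul_sub_mul_le (hc u) (Real.abs_cos_le_one (ψ u)) (Real.abs_cos_le_one (χ u))
        (hc u)
      rw [sq, sq]; linarith) hs
  have hH : ∀ s ∈ Icc (-1 : ℝ) 1, |fH ψ s - fH χ s| ≤ 2 * δ := fun s hs =>
    abs_prim_sub_le (by fun_prop) (by fun_prop) (fun u _ => by
      have := abs_mul_sub_mul_le (hsn u) (Real.abs_cos_le_one (ψ u)) (Real.abs_sin_le_one (χ u))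
        (hc u)
      linarith) hs
  have hB : ∀ s ∈ Icc (-1 : ℝ) 1, |fB ψ s - fB χ s| ≤ 4 * δ := fun s hs => by
    have h1 := abs_le.1 (hH s hs)
    have h2 := abs_le.1 (hH 1 one_mem)
    unfold fB
    rw [abs_le]; constructor <;> linarith [h1.1, h1.2, h2.1, h2.2]
  have hg : ∀ s ∈ Icc (-1 : ℝ) 1, |fg ψ s - fg χ s| ≤ (9 / 40) * δ := fun s hs => by
    have h1 := abs_le.1 (abs_mul_sub_mul_le (hA s hs) (Real.abs_cos_le_one (ψ s))
      (abs_fA_le χ hs) (hc s))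
    have h2 := abs_le.1 (abs_mul_sub_mul_le (hB s hs) (Real.abs_sin_le_one (ψ s))
      (abs_fB_le χ (D := 1) (fun u _ => Real.abs_sin_le_one _) hs) (hsn s))
    unfold fg
    rw [abs_le]; constructor <;> linarith [h1.1, h1.2, h2.1, h2.2]
  have hk : ∀ s ∈ Icc (-1 : ℝ) 1, |fk ψ s - fk χ s| ≤ (1 / 2) * δ := fun s hs => by
    have h1 := abs_le.1 (abs_prim_sub_le (fg_cont hψ) (fg_cont hχ) hg hs)
    have h2 := abs_le.1 (abs_prim_sub_le (fg_cont hψ) (fg_cont hχ) hg one_mem)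
    unfold fk
    rw [abs_le]; constructor <;> linarith [h1.1, h1.2, h2.1, h2.2]
  exact abs_prim_sub_le (fk_cont hψ) (fk_cont hχ) hk hs

theorem neg_one_le_one : (-1 : ℝ) ≤ 1 := by norm_num

noncomputable def oddExt (f : C(Icc (-1 : ℝ) 1, ℝ)) (s : ℝ) : ℝ :=
  (f (projIcc (-1) 1 neg_one_le_one s) - f (projIcc (-1) 1 neg_one_le_one (-s))) / 2

theorem oddExt_cont (f : C(Icc (-1 : ℝ) 1, ℝ)) : Continuous (oddExt f) := by
  unfold oddExt
  have h1 : Continuous (projIcc (-1 : ℝ) 1 neg_one_le_one) := continuous_projIcc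
  have h2 := f.continuous
  fun_prop

theorem oddExt_odd (f : C(Icc (-1 : ℝ) 1, ℝ)) (s : ℝ) : oddExt f (-s) = -oddExt f s := by
  unfold oddExt
  rw [neg_neg]; ring

theorem oddExt_lip (f g : C(Icc (-1 : ℝ) 1, ℝ)) (s : ℝ) :
    |oddExt f s - oddExt g s| ≤ dist f g := by
  have h1 := ContinuousMap.dist_apply_le_dist (f := f) (g := g) (projIcc (-1) 1 neg_one_le_one s)
  have h2 :=
    ContinuousMap.dist_apply_le_dist (f := f) (g := g) (projIcc (-1) 1 neg_one_le_one (-s))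
  rw [Real.dist_eq, abs_le] at h1 h2
  unfold oddExt
  rw [abs_le]; constructor <;> linarith [h1.1, h1.2, h2.1, h2.2]

noncomputable def stepMap (f : C(Icc (-1 : ℝ) 1, ℝ)) : C(Icc (-1 : ℝ) 1, ℝ) :=
  ⟨fun s => fPhi (oddExt f) s, (fPhi_cont (oddExt_cont f)).comp continuous_subtype_val⟩

theorem stepMap_contracting : ContractingWith (1 / 2 : NNReal) stepMap := by
  refine ⟨by norm_num, LipschitzWith.of_dist_le_mul fun f g => ?_⟩
  rw [ContinuousMap.dist_le (by positivity)]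
  intro s
  have := fPhi_lip (oddExt_cont f) (oddExt_cont g) (oddExt_lip f g) s.2
  simpa [stepMap, Real.dist_eq] using this

theorem exists_fixed : ∃ ψ : ℝ → ℝ, Continuous ψ ∧ (∀ s, ψ (-s) = -ψ s) ∧
    ∀ s ∈ Icc (-1 : ℝ) 1, ψ s = fPhi ψ s := by
  let f := stepMap_contracting.fixedPoint
  have hf : stepMap f = f := stepMap_contracting.fixedPoint_isFixedPt
  refine ⟨oddExt f, oddExt_cont f, oddExt_odd f, fun s hs => ?_⟩
  have hs' : -s ∈ Icc (-1 : ℝ) 1 := ⟨by linarith [hs.2], by linarith [hs.1]⟩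
  have e : ∀ u : Icc (-1 : ℝ) 1, f u = fPhi (oddExt f) u := fun u => by
    conv_lhs => rw [← hf]
    rfl
  have h1 : oddExt f s = (fPhi (oddExt f) s - fPhi (oddExt f) (-s)) / 2 := by
    conv_lhs => unfold oddExt
    rw [projIcc_of_mem _ hs, projIcc_of_mem _ hs', e, e]
  rw [h1, fPhi_odd (oddExt_odd f)]
  ring

end Pool.Agent.MP_03af62_an
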